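import Pool.Agent.R129.Hfp.Main
import Pool.Agent.R926.SC.Four
import Pool.Agent.Y335.FL.CircEx

/-!
# `1/2`-flow-pairs: graphs with chains of short ears
-/

set_option autoImplicit false
set_option linter.unusedSectionVars false

namespace Pool.Agent.R129.Hfp

open Finset Pool.Agent.H160R2.HF Pool.Agent.H179R3.HF Pool.Agent.TH499.NF
open Pool.Agent.TH676.Z Pool.Agent.Y335.FL Pool.Agent.R926.SC

variable {V E : Type} [Fintype V] [Fintype E] [DecidableEq V] [DecidableEq E]

theorem nzK_of {G : OrGraph V E} (h : Pool.Agent.TH362.TF.NZ G.t G.h univ) : NzK G := by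
  obtain ⟨φ, h1, h2⟩ := h
  refine ⟨φ, fun e => h1 e (mem_univ _), fun x => ?_⟩
  rw [bd_eq]
  exact h2 x

theorem n1_of {G : OrGraph V E} (hb : ∀ X : Finset V, (G.cut X).card ≠ 1) :
    Pool.Agent.TH362.TF.N1 G.t G.h univ := by
  intro x h
  apply hb (univ.filter (fun v => x v = true))
  rw [← h]
  congr 1
  ext e
  rw [mem_cut, mem_filter, mem_filter]
  unfold Pool.Agent.TH362.TF.cut
  rw [mem_filter]
  cases h1 : x (G.t e) <;> cases h2 : x (G.h e) <;> simp

theorem crs_map (s t : E → V) (ρ : V → V) (Y : Finset V) :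
    crs (fun e => ρ (s e)) (fun e => ρ (t e)) Y = crs s t (univ.filter (fun x => ρ x ∈ Y)) := by
  ext e
  rw [Pool.Agent.R926.SC.mem_crs, Pool.Agent.R926.SC.mem_crs, mem_filter, mem_filter]
  simp only [mem_univ, true_and]

/-- the class: chains of edge sets with at most four new edges and without new bridges, such that
all contractions of their union have at most sixteen odd vertices -/
def Ears (G : OrGraph V E) : Prop := ∃ (m : ℕ) (C : Fin m → Finset E),
  (∀ i, BrM G.t G.h ((univ.filter (fun j => j < i)).biUnion C)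
    (C i \ (univ.filter (fun j => j < i)).biUnion C)) ∧
  (∀ i, (C i \ (univ.filter (fun j => j < i)).biUnion C).card ≤ 4) ∧
  ∀ r : V → V, (∀ e ∈ univ.biUnion C, r (G.t e) = r (G.h e)) →
    (Pool.Agent.TH362.TF.odd (r ∘ G.t) (r ∘ G.h) univ).card ≤ 16

theorem Ears.map {G : OrGraph V E} (ρ : V → V) (h : Ears G) : Ears (mp G ρ) := by
  obtain ⟨m, C, h1, h2, h3⟩ := h
  refine ⟨m, C, fun i Y hY => ?_, h2, fun r hr => ?_⟩
  · have e1 : crs (mp G ρ).t (mp G ρ).h Y = crs G.t G.h (univ.filter (fun x => ρ x ∈ Y)) :=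
      crs_map G.t G.h ρ Y
    rw [e1] at hY ⊢
    exact h1 i _ hY
  · exact h3 (r ∘ ρ) hr

theorem Ears.dich {G : OrGraph V E} (h : Ears G) (hb : ∀ X : Finset V, (G.cut X).card ≠ 1) :
    NzK G ∨ Pool.Agent.TH362.TF.PQ G.t G.h univ := by
  obtain ⟨m, C, h1, h2, h3⟩ := h
  rcases fourR circEx G.t G.h m C h1 h2 (n1_of hb) (fun r hr _ => h3 r hr) with h | h
  · exact Or.inl (nzK_of h)
  · exact Or.inr h

/-- the degree -/
def dg (s t : E → V) (v : V) : ℕ := ∑ e, ((if s e = v then 1 else 0) + (if t e = v then 1 else 0))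

theorem dg_par (s t : E → V) (X : Finset V) :
    Odd (∑ v ∈ X, dg s t v) ↔ Odd (crs s t X).card := by
  have h : ∑ v ∈ X, dg s t v =
      (crs s t X).card + 2 * (univ.filter (fun e => s e ∈ X ∧ t e ∈ X)).card := by
    unfold dg crs
    rw [sum_comm, card_filter, card_filter, mul_sum, ← sum_add_distrib]
    refine sum_congr rfl fun e _ => ?_
    rw [sum_add_distrib, sum_ite_eq, sum_ite_eq]
    by_cases h1 : s e ∈ X <;> by_cases h2 : t e ∈ X <;> simp [h1, h2]
  rw [h]
  constructor
  · intro h1
    exact (Nat.odd_add.mp h1).mpr (even_two_mul _)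
  · intro h1
    exact h1.add_even (even_two_mul _)

theorem odd_le {s t : E → V} {F : Finset E}
    (h16 : ((univ.image (comp s t F)).filter (fun X => Odd (crs s t X).card)).card ≤ 16)
    (r : V → V) (hr : ∀ e ∈ F, r (s e) = r (t e)) :
    (Pool.Agent.TH362.TF.odd (r ∘ s) (r ∘ t) univ).card ≤ 16 := by
  classical
  have hcomp : ∀ x y, y ∈ comp s t F x → r x = r y := by
    intro x y h
    rw [mem_comp] at h
    induction h with
    | rel a b hab =>
      obtain ⟨e, he, rfl, rfl⟩ := hab
      exact hr e he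
    | refl a => rfl
    | symm a b _ ih => exact ih.symm
    | trans a b c _ _ i1 i2 => exact i1.trans i2
  have hself : ∀ x, x ∈ comp s t F x := fun x => (mem_comp s t F x x).2 (Relation.EqvGen.refl _)
  have heq : ∀ x y, y ∈ comp s t F x ↔ comp s t F y = comp s t F x := by
    intro x y
    constructor
    · intro h
      rw [mem_comp] at h
      ext z
      rw [mem_comp, mem_comp]
      exact ⟨fun h1 => h.trans _ _ _ h1, fun h1 => (h.symm _ _).trans _ _ _ h1⟩
    · intro h
      rw [← h]
      exact hself y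
  have key : ∀ w, ∃ X : Finset V, w ∈ Pool.Agent.TH362.TF.odd (r ∘ s) (r ∘ t) univ →
      (X ∈ (univ.image (comp s t F)).filter (fun X => Odd (crs s t X).card)) ∧ X.Nonempty ∧
        ∀ x ∈ X, r x = w := by
    intro w
    by_cases hw : w ∈ Pool.Agent.TH362.TF.odd (r ∘ s) (r ∘ t) univ
    swap
    · exact ⟨∅, fun h => absurd h hw⟩
    unfold Pool.Agent.TH362.TF.odd at hw
    rw [mem_filter, deg_par, ← dg_par] at hw
    by_contra hcon
    push Not at hcon
    have hall : ∀ X ∈ (univ.filter (fun x => r x = w)).image (comp s t F),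
        Even (∑ v ∈ (univ.filter (fun x => r x = w)) with comp s t F v = X, dg s t v) := by
      intro X hX
      obtain ⟨x, hx, rfl⟩ := mem_image.1 hX
      have hx' := (mem_filter.1 hx).2
      have hs : (univ.filter (fun x => r x = w)).filter (fun v => comp s t F v = comp s t F x) =
          comp s t F x := by
        ext v
        rw [mem_filter, mem_filter, ← heq]
        constructor
        · exact fun h => h.2
        · intro h
          exact ⟨⟨mem_univ _, (hcomp x v h).symm.trans hx'⟩, h⟩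
      rw [hs, ← Nat.not_odd_iff_even, dg_par]
      intro hodd
      obtain ⟨_, h1⟩ := hcon (comp s t F x)
      obtain ⟨z, hz, hz'⟩ := h1 (mem_filter.2 ⟨mem_image_of_mem _ (mem_univ _), hodd⟩)
        ⟨x, hself x⟩
      exact hz' ((hcomp x z hz).symm.trans hx')
    have hsum := sum_fiberwise_of_maps_to
      (s := univ.filter (fun x => r x = w)) (t := (univ.filter (fun x => r x = w)).image (comp s t F))
      (g := comp s t F) (fun x hx => mem_image_of_mem _ hx) (fun v => dg s t v)
    rw [← hsum] at hw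
    exact (Nat.not_even_iff_odd.2 hw.2) (even_sum _ hall)
  choose f hf using key
  refine le_trans (card_le_card_of_injOn f (fun w hw => (hf w hw).1) ?_) h16
  intro w hw w' hw' h
  obtain ⟨_, ⟨x, hx⟩, h1⟩ := hf w hw
  obtain ⟨_, _, h2⟩ := hf w' hw'
  rw [← h1 x hx]
  exact h2 x (by rw [← h]; exact hx)

/-- the main theorem for the class -/
theorem ears {G : OrGraph V E} (h : Ears G) (hb : ∀ X : Finset V, (G.cut X).card ≠ 1) :
    (∃ φ₂ φ₄ : E → ℤ, G.IsHalfFlowPair φ₂ φ₄) ∧ ∀ w, FlexAt G w :=
  main Ears (fun _ ρ h => h.map ρ) (fun _ h hb => h.dich hb) _ G rfl h hb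

theorem deg_cut (G : OrGraph V E) (x : V) : G.deg univ x = (G.cut {x}).card +
    2 * (univ.filter (fun e => G.t e = x ∧ G.h e = x)).card := by
  unfold OrGraph.deg OrGraph.cut
  rw [card_filter, card_filter, card_filter, card_filter, mul_sum, ← sum_add_distrib,
    ← sum_add_distrib]
  refine sum_congr rfl fun e _ => ?_
  simp only [mem_singleton]
  by_cases h1 : G.t e = x <;> by_cases h2 : G.h e = x <;> simp [h1, h2]

end Pool.Agent.R129.Hfp
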