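import Pool.Agent.R129.Hfp.Pet
import Pool.Agent.TH499.NF.Cor

/-!
# `1/2`-flow-pairs and Petersen quotients: gluing
-/

set_option autoImplicit false
set_option linter.unusedSectionVars false

namespace Pool.Agent.R129.Hfp

open Finset Pool.Agent.H160R2.HF Pool.Agent.H179R3.HF Pool.Agent.TH499.NF
open Pool.Agent.TH362.TF (nb padj IsPQ PQ Joins)

variable {V E : Type} [Fintype V] [Fintype E] [DecidableEq V] [DecidableEq E]

/-- the class `k` of `κ` -/
def Cl (κ : V → Fin 10) (k : Fin 10) : Finset V := univ.filter (fun v => κ v = k)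

theorem mem_Cl {κ : V → Fin 10} {k : Fin 10} {v : V} : v ∈ Cl κ k ↔ κ v = k := by
  unfold Cl
  rw [mem_filter]
  exact ⟨fun h => h.2, fun h => ⟨mem_univ _, h⟩⟩

theorem mem_cut {G : OrGraph V E} {X : Finset V} {e : E} :
    e ∈ G.cut X ↔ ¬ (G.t e ∈ X ↔ G.h e ∈ X) := by
  unfold OrGraph.cut
  rw [mem_filter]
  exact ⟨fun h => h.2, fun h => ⟨mem_univ _, h⟩⟩

theorem cut_Cl {G : OrGraph V E} {κ : V → Fin 10} (h : IsPQ G.t G.h univ κ) (k : Fin 10) :
    (G.cut (Cl κ k)).card = 3 := by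
  rw [← h.1 k]
  congr 1
  ext e
  rw [mem_cut, mem_Cl, mem_Cl]
  unfold Pool.Agent.TH362.TF.cut
  rw [mem_filter]
  by_cases h1 : κ (G.t e) = k <;> by_cases h2 : κ (G.h e) = k <;> simp [h1, h2]

/-- the three edges which leave a class -/
theorem star3 {G : OrGraph V E} {κ : V → Fin 10} (h : IsPQ G.t G.h univ κ) (k : Fin 10) :
    ∃ f : Fin 3 → E, Function.Injective f ∧ G.cut (Cl κ k) = univ.image f ∧
      ∀ j, Joins κ G.t G.h k (nb k j) (f j) := by
  have h1 : ∀ j, ∃ e, Joins κ G.t G.h k (nb k j) e := fun j =>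
    (h.2 k (nb k j) (padj_nb k j)).imp fun e he => he.2
  choose f hf using h1
  have hinj : Function.Injective f := by
    intro i j hij
    have hi := hf i
    have hj := hf j
    rw [hij] at hi
    apply nb_inj k
    have ni := nb_ne k i
    have nj := nb_ne k j
    rcases hi with ⟨a, b⟩ | ⟨a, b⟩ <;> rcases hj with ⟨c, d⟩ | ⟨c, d⟩
    · rw [← b, ← d]
    · exact absurd (a.symm.trans c) (fun h => nj h.symm)
    · exact absurd (c.symm.trans a) (fun h => ni h.symm)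
    · rw [← a, ← c]
  refine ⟨f, hinj, ?_, hf⟩
  symm
  apply eq_of_subset_of_card_le
  · intro e he
    obtain ⟨j, _, rfl⟩ := mem_image.1 he
    rw [mem_cut, mem_Cl, mem_Cl]
    have nj := nb_ne k j
    rcases hf j with ⟨a, b⟩ | ⟨a, b⟩
    · rw [a, b]; exact fun hh => nj (hh.1 rfl)
    · rw [a, b]; exact fun hh => nj (hh.2 rfl)
  · rw [cut_Cl h k, card_image_of_injective _ hinj, card_univ, Fintype.card_fin]

theorem adj_of {G : OrGraph V E} {κ : V → Fin 10} (h : IsPQ G.t G.h univ κ) {e : E}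
    (he : κ (G.t e) ≠ κ (G.h e)) : padj (κ (G.t e)) (κ (G.h e)) = true := by
  obtain ⟨f, hf, hc, hj⟩ := star3 h (κ (G.t e))
  have h1 : e ∈ G.cut (Cl κ (κ (G.t e))) := by
    rw [mem_cut, mem_Cl, mem_Cl]
    exact fun hh => he (hh.1 rfl).symm
  rw [hc] at h1
  obtain ⟨j, _, hje⟩ := mem_image.1 h1
  have h2 := hj j
  rw [hje] at h2
  rcases h2 with ⟨_, b⟩ | ⟨a, _⟩
  · rw [b]; exact padj_nb _ _
  · exact absurd a.symm (nb_ne _ _)

/-- the net outflow of a class -/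
theorem out_Cl {G : OrGraph V E} {κ : V → Fin 10} (h : IsPQ G.t G.h univ κ)
    {Y : Fin 10 → Fin 10 → ℤ} (ha : ∀ k l, Y l k = - Y k l) (k : Fin 10) :
    ∑ e ∈ G.cut (Cl κ k), (if κ (G.t e) = k then Y (κ (G.t e)) (κ (G.h e))
      else - Y (κ (G.t e)) (κ (G.h e))) = ∑ j, Y k (nb k j) := by
  obtain ⟨f, hf, hc, hj⟩ := star3 h k
  rw [hc, sum_image (fun a _ b _ hab => hf hab)]
  refine sum_congr rfl fun j _ => ?_
  rcases hj j with ⟨a, b⟩ | ⟨a, b⟩
  · rw [a, b, if_pos rfl]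
  · rw [a, b, if_neg (nb_ne k j), ← ha]

/-- contraction of the complement of a class -/
def ro (κ : V → Fin 10) (c : Fin 10 → V) (k : Fin 10) (v : V) : V := if κ v = k then v else c k

theorem ro_pre {κ : V → Fin 10} {c : Fin 10 → V} (hc : ∀ k, κ (c k) ≠ k) (k : Fin 10) :
    univ.filter (fun x => ro κ c k x ∈ ({c k} : Finset V)) = (Cl κ k)ᶜ := by
  ext x
  rw [mem_filter, mem_compl, mem_Cl, mem_singleton]
  unfold ro
  constructor
  · rintro ⟨_, h⟩ hx
    rw [if_pos hx] at h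
    exact hc k (h ▸ hx)
  · intro hx
    exact ⟨mem_univ _, if_neg hx⟩

theorem cut_ro {G : OrGraph V E} {κ : V → Fin 10} {c : Fin 10 → V} (hc : ∀ k, κ (c k) ≠ k)
    (k : Fin 10) : (mp G (ro κ c k)).cut {c k} = G.cut (Cl κ k) := by
  rw [cut_mp, ro_pre hc k]
  ext e
  rw [mem_cut, mem_cut, mem_compl, mem_compl]
  tauto

theorem ro_eq {κ : V → Fin 10} {c : Fin 10 → V} (hc : ∀ k, κ (c k) ≠ k) {k : Fin 10} {w : V}
    (hw : κ w = k) (x : V) : ro κ c k x = w ↔ x = w := by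
  unfold ro
  split_ifs with h
  · exact Iff.rfl
  · constructor
    · intro h1
      exact absurd (h1 ▸ hw) (hc k)
    · intro h1
      exact absurd (h1 ▸ hw) h

theorem cut_ro' {G : OrGraph V E} {κ : V → Fin 10} {c : Fin 10 → V} (hc : ∀ k, κ (c k) ≠ k)
    {k : Fin 10} {w : V} (hw : κ w = k) : (mp G (ro κ c k)).cut {w} = G.cut {w} := by
  rw [cut_mp]
  congr 1
  ext x
  rw [mem_filter, mem_singleton, mem_singleton, ro_eq hc hw]
  exact ⟨fun h => h.2, fun h => ⟨mem_univ _, h⟩⟩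

/-- every admissible choice of values at `w` extends -/
def FlexAt (G : OrGraph V E) (w : V) : Prop := (G.cut {w}).card = 3 → ∀ α β : E → ℤ,
  ∑ e ∈ G.cut {w}, (if G.t e = w then α e else - α e) = 0 →
  ∑ e ∈ G.cut {w}, (if G.t e = w then β e else - β e) = 0 →
  (∀ e ∈ G.cut {w}, Ok (α e) (β e)) →
  ∃ φ₂ φ₄ : E → ℤ, G.IsHalfFlowPair φ₂ φ₄ ∧ ∀ e ∈ G.cut {w}, φ₂ e = α e ∧ φ₄ e = β e

theorem net_cut {G : OrGraph V E} {φ : E → ℤ} (hφ : G.IsFlow φ) (w : V) :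
    ∑ e ∈ G.cut {w}, (if G.t e = w then φ e else - φ e) = 0 := by
  have h1 := net_star G φ w
  have h2 : net G.t G.h φ w = 0 := by
    unfold net
    rw [hφ w, sub_self]
  rw [h2] at h1
  rw [h1]
  refine sum_congr rfl fun e _ => ?_
  unfold og
  split_ifs <;> ring

/-- the sign at `c k` is opposite to the sign at the class `k` -/
theorem sgn {G : OrGraph V E} {κ : V → Fin 10} {c : Fin 10 → V} (hc : ∀ k, κ (c k) ≠ k)
    (k : Fin 10) (φ : E → ℤ) :
    ∑ e ∈ (mp G (ro κ c k)).cut {c k}, (if (mp G (ro κ c k)).t e = c k then φ e else - φ e) =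
      - ∑ e ∈ G.cut (Cl κ k), (if κ (G.t e) = k then φ e else - φ e) := by
  rw [cut_ro hc, ← sum_neg_distrib]
  refine sum_congr rfl fun e _ => ?_
  have h1 : (mp G (ro κ c k)).t e = c k ↔ κ (G.t e) ≠ k := by
    change ro κ c k (G.t e) = c k ↔ _
    unfold ro
    split_ifs with h
    · exact ⟨fun h2 => absurd (h2 ▸ h) (hc k), fun h2 => absurd h h2⟩
    · exact ⟨fun _ => h, fun _ => rfl⟩
  by_cases h : κ (G.t e) = k
  · rw [if_neg (fun h2 => (h1.1 h2) h), if_pos h]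
  · rw [if_pos (h1.2 h), if_neg h, neg_neg]

/-- gluing the classes: the pair on the class `0` is given -/
theorem glueP {G : OrGraph V E} {κ : V → Fin 10} (h : IsPQ G.t G.h univ κ) {c : Fin 10 → V}
    (hc : ∀ k, κ (c k) ≠ k) (hF : ∀ k, FlexAt (mp G (ro κ c k)) (c k)) {a₂ a₄ : E → ℤ}
    (ha : (mp G (ro κ c 0)).IsHalfFlowPair a₂ a₄) :
    ∃ φ₂ φ₄ : E → ℤ, G.IsHalfFlowPair φ₂ φ₄ ∧
      ∀ e, (κ (G.t e) = 0 ∨ κ (G.h e) = 0) → φ₂ e = a₂ e ∧ φ₄ e = a₄ e := by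
  classical
  obtain ⟨f, hf, hcut, hj⟩ := star3 h 0
  obtain ⟨a1, a2, a3⟩ := (pair_iff_ok _ _ _).1 ha
  -- the values at the class `0`
  let z : (E → ℤ) → Fin 3 → ℤ := fun a d => if κ (G.t (f d)) = 0 then a (f d) else - a (f d)
  have hz : ∀ a : E → ℤ, (mp G (ro κ c 0)).IsFlow a → ∑ d, z a d = 0 := by
    intro a haf
    have h1 := net_cut haf (c 0)
    rw [sgn hc 0 a, hcut, sum_image (fun x _ y _ hxy => hf hxy)] at h1
    have h2 : ∑ d, z a d = ∑ x, (if κ (G.t (f x)) = 0 then a (f x) else - a (f x)) := rfl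
    rw [h2]
    linarith
  obtain ⟨Y2, Y4, b1, b2, b3, b4, b5, b6, b7⟩ := pet (z2 := z a₂) (z4 := z a₄) (by
    intro d
    by_cases h1 : κ (G.t (f d)) = 0
    · change Ok (if κ (G.t (f d)) = 0 then a₂ (f d) else - a₂ (f d))
        (if κ (G.t (f d)) = 0 then a₄ (f d) else - a₄ (f d))
      rw [if_pos h1, if_pos h1]
      exact a3 _
    · change Ok (if κ (G.t (f d)) = 0 then a₂ (f d) else - a₂ (f d))
        (if κ (G.t (f d)) = 0 then a₄ (f d) else - a₄ (f d))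
      rw [if_neg h1, if_neg h1]
      exact ok_neg' (a3 _)) (hz a₂ a1) (hz a₄ a2)
  -- the values on the cut of the class `0`
  have h0 : ∀ (a : E → ℤ) (Y : Fin 10 → Fin 10 → ℤ), (∀ k l, Y l k = - Y k l) →
      (∀ j, Y 0 (nb 0 j) = z a j) → ∀ e ∈ G.cut (Cl κ 0), a e = Y (κ (G.t e)) (κ (G.h e)) := by
    intro a Y hY hY0 e he
    rw [hcut] at he
    obtain ⟨j, _, rfl⟩ := mem_image.1 he
    have h1 := hY0 j
    change _ = (if κ (G.t (f j)) = 0 then a (f j) else - a (f j)) at h1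
    rcases hj j with ⟨p, q⟩ | ⟨p, q⟩
    · rw [if_pos p] at h1
      rw [p, q, h1]
    · rw [if_neg (by rw [p]; exact nb_ne 0 j)] at h1
      rw [p, q, hY 0 (nb 0 j), h1, neg_neg]
  -- the pairs on all classes
  have hall : ∀ k, ∃ φ₂ φ₄ : E → ℤ, (mp G (ro κ c k)).IsHalfFlowPair φ₂ φ₄ ∧
      (∀ e ∈ G.cut (Cl κ k), φ₂ e = Y2 (κ (G.t e)) (κ (G.h e)) ∧
        φ₄ e = Y4 (κ (G.t e)) (κ (G.h e))) ∧ (k = 0 → φ₂ = a₂ ∧ φ₄ = a₄) := by
    intro k
    by_cases hk : k = 0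
    · subst hk
      exact ⟨a₂, a₄, ha, fun e he => ⟨h0 a₂ Y2 b1 b6 e he, h0 a₄ Y4 b2 b7 e he⟩,
        fun _ => ⟨rfl, rfl⟩⟩
    · obtain ⟨φ₂, φ₄, p1, p2⟩ := hF k (by rw [cut_ro hc]; exact cut_Cl h k)
        (fun e => Y2 (κ (G.t e)) (κ (G.h e))) (fun e => Y4 (κ (G.t e)) (κ (G.h e)))
        (by rw [sgn hc k, out_Cl h b1, b3, neg_zero]) (by rw [sgn hc k, out_Cl h b2, b4, neg_zero])
        (by
          intro e he
          rw [cut_ro hc, mem_cut, mem_Cl, mem_Cl] at he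
          refine b5 _ _ (adj_of h ?_)
          intro h1
          apply he
          rw [h1])
      rw [cut_ro hc] at p2
      exact ⟨φ₂, φ₄, p1, p2, fun h => absurd h hk⟩
  choose P2 P4 hP hPY hP0 using hall
  -- the definition by the tails can be replaced by the definition by the heads
  have hh : ∀ (P : Fin 10 → E → ℤ) (Y : Fin 10 → Fin 10 → ℤ),
      (∀ k, ∀ e ∈ G.cut (Cl κ k), P k e = Y (κ (G.t e)) (κ (G.h e))) →
      ∀ e, P (κ (G.t e)) e = P (κ (G.h e)) e := by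
    intro P Y hPY e
    by_cases h1 : κ (G.t e) = κ (G.h e)
    · rw [h1]
    · rw [hPY _ e (by
        rw [mem_cut, mem_Cl, mem_Cl]
        exact fun hh => h1 (hh.1 rfl).symm), hPY _ e (by
        rw [mem_cut, mem_Cl, mem_Cl]
        exact fun hh => h1 (hh.2 rfl))]
  have hfl : ∀ (P : Fin 10 → E → ℤ) (Y : Fin 10 → Fin 10 → ℤ),
      (∀ k, ∀ e ∈ G.cut (Cl κ k), P k e = Y (κ (G.t e)) (κ (G.h e))) →
      (∀ k, (mp G (ro κ c k)).IsFlow (P k)) → G.IsFlow (fun e => P (κ (G.t e)) e) := by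
    intro P Y hPY hPf v
    have h1 := hPf (κ v) v
    have e1 : ∑ e with (mp G (ro κ c (κ v))).t e = v, P (κ v) e =
        ∑ e with G.t e = v, P (κ (G.t e)) e := by
      have hs : univ.filter (fun e => (mp G (ro κ c (κ v))).t e = v) =
          univ.filter (fun e => G.t e = v) :=
        filter_congr fun e _ => ro_eq hc rfl (G.t e)
      rw [hs]
      refine sum_congr rfl fun e he => ?_
      rw [(mem_filter.1 he).2]
    have e2 : ∑ e with (mp G (ro κ c (κ v))).h e = v, P (κ v) e =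
        ∑ e with G.h e = v, P (κ (G.t e)) e := by
      have hs : univ.filter (fun e => (mp G (ro κ c (κ v))).h e = v) =
          univ.filter (fun e => G.h e = v) :=
        filter_congr fun e _ => ro_eq hc rfl (G.h e)
      rw [hs]
      refine sum_congr rfl fun e he => ?_
      rw [hh P Y hPY e, (mem_filter.1 he).2]
    rw [← e1, ← e2]
    exact h1
  refine ⟨fun e => P2 (κ (G.t e)) e, fun e => P4 (κ (G.t e)) e, ?_, ?_⟩
  · rw [pair_iff_ok]
    refine ⟨hfl P2 Y2 (fun k e he => (hPY k e he).1) (fun k => ((pair_iff_ok _ _ _).1 (hP k)).1),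
      hfl P4 Y4 (fun k e he => (hPY k e he).2) (fun k => ((pair_iff_ok _ _ _).1 (hP k)).2.1),
      fun e => ((pair_iff_ok _ _ _).1 (hP _)).2.2 e⟩
  · intro e he
    rcases he with he | he
    · change P2 (κ (G.t e)) e = _ ∧ P4 (κ (G.t e)) e = _
      rw [he, (hP0 0 rfl).1, (hP0 0 rfl).2]
      exact ⟨rfl, rfl⟩
    · change P2 (κ (G.t e)) e = _ ∧ P4 (κ (G.t e)) e = _
      rw [hh P2 Y2 (fun k e he => (hPY k e he).1) e, hh P4 Y4 (fun k e he => (hPY k e he).2) e,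
        he, (hP0 0 rfl).1, (hP0 0 rfl).2]
      exact ⟨rfl, rfl⟩

end Pool.Agent.R129.Hfp
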