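import Pool.Agent.R129.Hfp.Glue

/-!
# `1/2`-flow-pairs and Petersen quotients: the main theorem
-/

set_option autoImplicit false
set_option linter.unusedSectionVars false

namespace Pool.Agent.R129.Hfp

open Finset Pool.Agent.H160R2.HF Pool.Agent.H179R3.HF Pool.Agent.TH499.NF
open Pool.Agent.TH362.TF (nb padj IsPQ PQ Joins)

variable {V E : Type} [Fintype V] [Fintype E] [DecidableEq V] [DecidableEq E]

/-- a nowhere-zero flow over the Klein four-group -/
def NzK (G : OrGraph V E) : Prop := ∃ f : E → K4, (∀ e, f e ≠ 0) ∧ ∀ x, bd G f x = 0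

/-- the number of the edges which are not loops -/
def nl (G : OrGraph V E) : ℕ := (univ.filter (fun e => G.t e ≠ G.h e)).card

theorem bridgeless_of {G : OrGraph V E} (hb : ∀ X : Finset V, (G.cut X).card ≠ 1) :
    G.Bridgeless := by
  classical
  intro e
  by_contra hcon
  apply hb (univ.filter (fun v => (G.sub (univ.erase e)).Reachable (G.t e) v))
  rw [card_eq_one]
  refine ⟨e, ?_⟩
  ext e'
  rw [mem_cut, mem_filter, mem_filter, mem_singleton]
  constructor
  · intro h
    by_contra hne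
    apply h
    by_cases heq : G.t e' = G.h e'
    · rw [heq]
    · have hadj : (G.sub (univ.erase e)).Adj (G.t e') (G.h e') := by
        unfold OrGraph.sub
        rw [SimpleGraph.fromRel_adj]
        exact ⟨heq, Or.inl ⟨e', mem_erase.2 ⟨hne, mem_univ _⟩, rfl, rfl⟩⟩
      constructor
      · rintro ⟨_, h1⟩
        exact ⟨mem_univ _, h1.trans hadj.reachable⟩
      · rintro ⟨_, h1⟩
        exact ⟨mem_univ _, h1.trans hadj.symm.reachable⟩
  · rintro rfl h
    exact hcon (h.1 ⟨mem_univ _, SimpleGraph.Reachable.refl _⟩).2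

theorem flex_of_nz {G : OrGraph V E} (h : NzK G) (w : V) : FlexAt G w := by
  obtain ⟨f, hnz, hf⟩ := h
  intro hw α β hα hβ hok
  have ho : ∀ γ : E → ℤ, ∑ e ∈ G.cut {w}, og G w e * γ e =
      ∑ e ∈ G.cut {w}, (if G.t e = w then γ e else - γ e) := by
    intro γ
    refine Finset.sum_congr rfl fun e _ => ?_
    unfold og
    split_ifs <;> ring
  exact prescribed hnz hf hw α β (by rw [ho]; exact hα) (by rw [ho]; exact hβ)
    (fun e he => (hok e he).1) (fun e he => (hok e he).2.1) (fun e he => (hok e he).2.2)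

theorem pair_of_nz {G : OrGraph V E} (hb : ∀ X : Finset V, (G.cut X).card ≠ 1) (h : NzK G) :
    ∃ φ₂ φ₄ : E → ℤ, G.IsHalfFlowPair φ₂ φ₄ := by
  obtain ⟨f, hnz, hf⟩ := h
  exact nearlyK' G (bridgeless_of hb) (f₀ := f) hf fun g _ hg => absurd hg (hnz g)

theorem isPQ_tau {G : OrGraph V E} {κ : V → Fin 10} (h : IsPQ G.t G.h univ κ) (k : Fin 10) :
    IsPQ G.t G.h univ (fun v => tau k (κ v)) := by
  have hiff : ∀ l x, tau k x = l ↔ x = sig k l := by
    intro l x
    constructor
    · rintro rfl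
      rw [sig_tau]
    · rintro rfl
      rw [tau_sig]
  refine ⟨fun l => ?_, fun l m hlm => ?_⟩
  · rw [← h.1 (sig k l)]
    congr 2
    funext v
    by_cases h1 : κ v = sig k l
    · rw [decide_eq_true h1, decide_eq_true ((hiff _ _).2 h1)]
    · rw [decide_eq_false h1, decide_eq_false (fun h2 => h1 ((hiff _ _).1 h2))]
  · obtain ⟨e, he, hj⟩ := h.2 (sig k l) (sig k m) (by rw [sig_adj]; exact hlm)
    refine ⟨e, he, ?_⟩
    rcases hj with ⟨a, b⟩ | ⟨a, b⟩
    · exact Or.inl ⟨(hiff _ _).2 a, (hiff _ _).2 b⟩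
    · exact Or.inr ⟨(hiff _ _).2 a, (hiff _ _).2 b⟩

theorem nl_lt {G : OrGraph V E} {κ : V → Fin 10} (h : IsPQ G.t G.h univ κ) (c : Fin 10 → V)
    (k : Fin 10) : nl (mp G (ro κ c k)) < nl G := by
  apply card_lt_card
  refine ⟨?_, fun hsub => ?_⟩
  · intro e he
    rw [mem_filter] at he ⊢
    refine ⟨mem_univ _, fun heq => he.2 ?_⟩
    change ro κ c k (G.t e) = ro κ c k (G.h e)
    rw [heq]
  · obtain ⟨l, m, hl, hm, hlm⟩ := padj_far k
    obtain ⟨e, _, hj⟩ := h.2 l m hlm
    have hne := padj_ne l m hlm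
    have he : e ∈ univ.filter (fun e => G.t e ≠ G.h e) := by
      rw [mem_filter]
      refine ⟨mem_univ _, fun heq => hne ?_⟩
      rcases hj with ⟨a, b⟩ | ⟨a, b⟩
      · rw [← a, ← b, heq]
      · rw [← a, ← b, heq]
    have h1 := (mem_filter.1 (hsub he)).2
    apply h1
    change ro κ c k (G.t e) = ro κ c k (G.h e)
    unfold ro
    rcases hj with ⟨a, b⟩ | ⟨a, b⟩
    · rw [if_neg (by rw [a]; exact hl), if_neg (by rw [b]; exact hm)]
    · rw [if_neg (by rw [a]; exact hm), if_neg (by rw [b]; exact hl)]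

theorem exists_c {G : OrGraph V E} {κ : V → Fin 10} (h : IsPQ G.t G.h univ κ) :
    ∃ c : Fin 10 → V, ∀ k, κ (c k) ≠ k := by
  have h1 : ∀ k, ∃ v, κ v ≠ k := by
    intro k
    obtain ⟨e, _, hj⟩ := h.2 k (nb k 0) (padj_nb k 0)
    rcases hj with ⟨_, b⟩ | ⟨a, _⟩
    · exact ⟨_, by rw [b]; exact nb_ne k 0⟩
    · exact ⟨_, by rw [a]; exact nb_ne k 0⟩
  choose c hc using h1
  exact ⟨c, hc⟩

theorem cut_mp_ne {G : OrGraph V E} (hb : ∀ X : Finset V, (G.cut X).card ≠ 1) (ρ : V → V)
    (X : Finset V) : ((mp G ρ).cut X).card ≠ 1 := by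
  rw [cut_mp]
  exact hb _

/-- **Main theorem**: in a class which is closed under identifications of vertices, and whose
members without edge cuts of size one have a nowhere-zero 4-flow or a Petersen quotient, every
member without edge cuts of size one has a `1/2`-flow-pair, and every admissible choice of values at
a vertex of degree three extends. -/
theorem main (P : OrGraph V E → Prop) (hP : ∀ G ρ, P G → P (mp G ρ))
    (hd : ∀ G, P G → (∀ X : Finset V, (G.cut X).card ≠ 1) → NzK G ∨ PQ G.t G.h univ) :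
    ∀ (n : ℕ) (G : OrGraph V E), nl G = n → P G → (∀ X : Finset V, (G.cut X).card ≠ 1) →
      (∃ φ₂ φ₄ : E → ℤ, G.IsHalfFlowPair φ₂ φ₄) ∧ ∀ w, FlexAt G w := by
  intro n
  induction n using Nat.strong_induction_on with
  | _ n ih =>
    intro G hn hG hb
    rcases hd G hG hb with h | ⟨κ, h⟩
    · exact ⟨pair_of_nz hb h, flex_of_nz h⟩
    · have IH : ∀ (κ' : V → Fin 10), IsPQ G.t G.h univ κ' → ∀ (c : Fin 10 → V) (k : Fin 10),
          (∃ φ₂ φ₄ : E → ℤ, (mp G (ro κ' c k)).IsHalfFlowPair φ₂ φ₄) ∧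
            ∀ w, FlexAt (mp G (ro κ' c k)) w := by
        intro κ' h' c k
        exact ih _ (by rw [← hn]; exact nl_lt h' c k) _ rfl (hP _ _ hG) (cut_mp_ne hb _)
      constructor
      · obtain ⟨c, hc⟩ := exists_c h
        obtain ⟨⟨a₂, a₄, ha⟩, _⟩ := IH κ h c 0
        obtain ⟨φ₂, φ₄, h1, _⟩ := glueP h hc (fun k => (IH κ h c k).2 _) ha
        exact ⟨φ₂, φ₄, h1⟩
      · intro w hw α β hα hβ hok
        obtain ⟨κ', h', hw0⟩ : ∃ κ' : V → Fin 10, IsPQ G.t G.h univ κ' ∧ κ' w = 0 :=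
          ⟨fun v => tau (κ w) (κ v), isPQ_tau h (κ w), tau_self _⟩
        obtain ⟨c, hc⟩ := exists_c h'
        have hcut := cut_ro' (G := G) hc hw0
        have hsum : ∀ γ : E → ℤ, ∑ e ∈ (mp G (ro κ' c 0)).cut {w},
            (if (mp G (ro κ' c 0)).t e = w then γ e else - γ e) =
            ∑ e ∈ G.cut {w}, (if G.t e = w then γ e else - γ e) := by
          intro γ
          rw [hcut]
          refine sum_congr rfl fun e _ => ?_
          have h1 : (mp G (ro κ' c 0)).t e = w ↔ G.t e = w := ro_eq hc hw0 (G.t e)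
          by_cases h2 : G.t e = w
          · rw [if_pos h2, if_pos (h1.2 h2)]
          · rw [if_neg h2, if_neg (fun h3 => h2 (h1.1 h3))]
        obtain ⟨a₂, a₄, ha, hav⟩ := (IH κ' h' c 0).2 w (by rw [hcut]; exact hw) α β
          (by rw [hsum]; exact hα) (by rw [hsum]; exact hβ) (by rw [hcut]; exact hok)
        rw [hcut] at hav
        obtain ⟨φ₂, φ₄, h1, h2⟩ := glueP h' hc (fun k => (IH κ' h' c k).2 _) ha
        refine ⟨φ₂, φ₄, h1, fun e he => ?_⟩
        have h3 : κ' (G.t e) = 0 ∨ κ' (G.h e) = 0 := by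
          rw [mem_cut, mem_singleton, mem_singleton] at he
          by_cases h4 : G.t e = w
          · left; rw [h4]; exact hw0
          · by_cases h5 : G.h e = w
            · right; rw [h5]; exact hw0
            · exact absurd ⟨fun h => absurd h h4, fun h => absurd h h5⟩ he
        obtain ⟨h6, h7⟩ := h2 e h3
        obtain ⟨h8, h9⟩ := hav e he
        exact ⟨h6.trans h8, h7.trans h9⟩

end Pool.Agent.R129.Hfp
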