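import Pool.Agent.H179R3.HF.PoleV
import Pool.Agent.TH362.TF.Defs

/-!
# `1/2`-flow-pairs and Petersen quotients: the Petersen graph
-/

set_option autoImplicit false
set_option linter.unusedSectionVars false

namespace Pool.Agent.R129.Hfp

open Finset Pool.Agent.H160R2.HF Pool.Agent.H179R3.HF
open Pool.Agent.TH362.TF (nb padj IsPQ PQ Joins)

/-- automorphisms of the Petersen graph; `tau k` maps `k` to `0` -/
def tau : Fin 10 → Fin 10 → Fin 10 :=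
  ![![0, 1, 2, 3, 4, 5, 6, 7, 8, 9], ![1, 0, 4, 3, 2, 6, 5, 9, 8, 7],
    ![2, 1, 0, 4, 3, 7, 6, 5, 9, 8], ![3, 2, 1, 0, 4, 8, 7, 6, 5, 9],
    ![1, 2, 3, 4, 0, 6, 7, 8, 9, 5], ![1, 2, 3, 8, 6, 0, 7, 4, 5, 9],
    ![2, 1, 6, 9, 7, 3, 0, 8, 4, 5], ![3, 2, 1, 6, 8, 4, 7, 0, 9, 5],
    ![9, 7, 2, 1, 6, 4, 5, 3, 0, 8], ![2, 3, 8, 6, 1, 7, 4, 5, 9, 0]]

/-- the inverse automorphisms -/
def sig : Fin 10 → Fin 10 → Fin 10 :=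
  ![![0, 1, 2, 3, 4, 5, 6, 7, 8, 9], ![1, 0, 4, 3, 2, 6, 5, 9, 8, 7],
    ![2, 1, 0, 4, 3, 7, 6, 5, 9, 8], ![3, 2, 1, 0, 4, 8, 7, 6, 5, 9],
    ![4, 0, 1, 2, 3, 9, 5, 6, 7, 8], ![5, 0, 1, 2, 7, 8, 4, 6, 3, 9],
    ![6, 1, 0, 5, 8, 9, 2, 4, 7, 3], ![7, 2, 1, 0, 5, 9, 3, 6, 4, 8],
    ![8, 3, 2, 7, 5, 6, 4, 1, 9, 0], ![9, 4, 0, 1, 6, 7, 3, 5, 2, 8]]

theorem tau_sig : ∀ k x, tau k (sig k x) = x := by decide
theorem sig_tau : ∀ k x, sig k (tau k x) = x := by decide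
theorem tau_self : ∀ k, tau k k = 0 := by decide
theorem sig_adj : ∀ k a b, padj (sig k a) (sig k b) = padj a b := by decide
theorem nb_inj : ∀ k i j, nb k i = nb k j → i = j := by decide
theorem nb_ne : ∀ k j, nb k j ≠ k := by decide
theorem padj_nb : ∀ k j, padj k (nb k j) = true := by decide
theorem padj_symm : ∀ k l, padj k l = true → padj l k = true := by decide
theorem padj_ne : ∀ k l, padj k l = true → k ≠ l := by decide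
theorem padj_ex : ∀ k l, padj k l = true → ∃ j, l = nb k j := by decide
theorem padj_far : ∀ k, ∃ l m, l ≠ k ∧ m ≠ k ∧ padj l m = true := by decide

/-- the values of a flow of the Petersen graph, `Ym z y k l` is the flow from `k` to `l` -/
def Ym (z : Fin 3 → ℤ) (y : Fin 12 → ℤ) : Fin 10 → Fin 10 → ℤ :=
  ![![0, z 0, 0, 0, z 1, z 2, 0, 0, 0, 0],
    ![-z 0, 0, y 1, 0, 0, 0, y 2, 0, 0, 0],
    ![0, -y 1, 0, y 4, 0, 0, 0, y 5, 0, 0],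
    ![0, 0, -y 4, 0, y 7, 0, 0, 0, y 8, 0],
    ![-z 1, 0, 0, -y 7, 0, 0, 0, 0, 0, y 10],
    ![-z 2, 0, 0, 0, 0, 0, 0, y 0, -y 9, 0],
    ![0, -y 2, 0, 0, 0, 0, 0, 0, y 3, -y 11],
    ![0, 0, -y 5, 0, 0, -y 0, 0, 0, 0, y 6],
    ![0, 0, 0, -y 8, 0, y 9, -y 3, 0, 0, 0],
    ![0, 0, 0, 0, -y 10, 0, y 11, -y 6, 0, 0]]

theorem Ym_anti (z : Fin 3 → ℤ) (y : Fin 12 → ℤ) : ∀ k l, Ym z y l k = - Ym z y k l := by
  intro k l
  fin_cases k <;> fin_cases l <;> simp [Ym]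

theorem Ym_zero (z : Fin 3 → ℤ) (y : Fin 12 → ℤ) : ∀ j, Ym z y 0 (nb 0 j) = z j := by
  intro j
  fin_cases j <;> simp [Ym, nb]

theorem eqs {z : Fin 3 → ℤ} {y : Fin 12 → ℤ} (h : Fits bV tV hV z y) :
    y 1 + y 2 = z 0 ∧ y 4 + y 5 = y 1 ∧ y 7 + y 8 = y 4 ∧ y 10 = z 1 + y 7 ∧ y 0 = z 2 + y 9 ∧
      y 3 = y 2 + y 11 ∧ y 6 = y 0 + y 5 ∧ y 9 = y 3 + y 8 ∧ y 11 = y 6 + y 10 := by
  have key : ∀ n, (∑ i, if tV i = n then y i else 0) =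
      (∑ d, if bV d = n then z d else 0) + ∑ i, if hV i = n then y i else 0 := by
    intro n
    have := h n
    rwa [Finset.sum_filter, Finset.sum_filter, Finset.sum_filter] at this
  have k0 := key 0
  have k1 := key 1
  have k2 := key 2
  have k3 := key 3
  have k4 := key 4
  have k5 := key 5
  have k6 := key 6
  have k7 := key 7
  have k8 := key 8
  simp [Fin.sum_univ_succ, tV, hV, bV] at k0 k1 k2 k3 k4 k5 k6 k7 k8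
  refine ⟨?_, ?_, ?_, ?_, ?_, ?_, ?_, ?_, ?_⟩ <;> linarith

theorem Ym_cons {z : Fin 3 → ℤ} {y : Fin 12 → ℤ} (hz : z 0 + z 1 + z 2 = 0)
    (h : Fits bV tV hV z y) : ∀ k, ∑ j, Ym z y k (nb k j) = 0 := by
  obtain ⟨e0, e1, e2, e3, e4, e5, e6, e7, e8⟩ := eqs h
  intro k
  rw [Fin.sum_univ_three]
  fin_cases k <;> simp [Ym, nb] <;> linarith

theorem ok_neg' {a b : ℤ} (h : Ok a b) : Ok (-a) (-b) := by
  unfold Ok at *
  rw [abs_neg, abs_neg]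
  exact ⟨h.1, h.2.1, fun h0 => h.2.2 (by linarith)⟩

theorem Ym_ok' {z2 z4 : Fin 3 → ℤ} {y2 y4 : Fin 12 → ℤ} (hz : ∀ d, Ok (z2 d) (z4 d))
    (hy : ∀ i, Ok (y2 i) (y4 i)) : ∀ k j, Ok (Ym z2 y2 k (nb k j)) (Ym z4 y4 k (nb k j)) := by
  have hz' := fun d => ok_neg' (hz d)
  have hy' := fun i => ok_neg' (hy i)
  intro k j
  fin_cases k <;> fin_cases j
  · exact hz 0
  · exact hz 1
  · exact hz 2
  · exact hy 1
  · exact hz' 0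
  · exact hy 2
  · exact hy 4
  · exact hy' 1
  · exact hy 5
  · exact hy 7
  · exact hy' 4
  · exact hy 8
  · exact hz' 1
  · exact hy' 7
  · exact hy 10
  · exact hy 0
  · exact hy' 9
  · exact hz' 2
  · exact hy 3
  · exact hy' 11
  · exact hy' 2
  · exact hy 6
  · exact hy' 0
  · exact hy' 5
  · exact hy 9
  · exact hy' 3
  · exact hy' 8
  · exact hy 11
  · exact hy' 6
  · exact hy' 10

theorem Ym_ok {z2 z4 : Fin 3 → ℤ} {y2 y4 : Fin 12 → ℤ} (hz : ∀ d, Ok (z2 d) (z4 d))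
    (hy : ∀ i, Ok (y2 i) (y4 i)) (k l : Fin 10) (hkl : padj k l = true) :
    Ok (Ym z2 y2 k l) (Ym z4 y4 k l) := by
  obtain ⟨j, rfl⟩ := padj_ex k l hkl
  exact Ym_ok' hz hy k j

/-- every admissible choice of values at the vertex `0` of the Petersen graph extends -/
theorem pet {z2 z4 : Fin 3 → ℤ} (hz : ∀ d, Ok (z2 d) (z4 d)) (h2 : ∑ d, z2 d = 0)
    (h4 : ∑ d, z4 d = 0) : ∃ Y2 Y4 : Fin 10 → Fin 10 → ℤ, (∀ k l, Y2 l k = - Y2 k l) ∧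
      (∀ k l, Y4 l k = - Y4 k l) ∧ (∀ k, ∑ j, Y2 k (nb k j) = 0) ∧ (∀ k, ∑ j, Y4 k (nb k j) = 0) ∧
      (∀ k l, padj k l = true → Ok (Y2 k l) (Y4 k l)) ∧ (∀ j, Y2 0 (nb 0 j) = z2 j) ∧
      ∀ j, Y4 0 (nb 0 j) = z4 j := by
  rw [Fin.sum_univ_three] at h2 h4
  obtain ⟨y2, y4, f2, f4, hy⟩ := extV z2 z4 hz h2 h4
  exact ⟨Ym z2 y2, Ym z4 y4, Ym_anti _ _, Ym_anti _ _, Ym_cons h2 f2, Ym_cons h4 f4,
    Ym_ok hz hy, Ym_zero _ _, Ym_zero _ _⟩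

end Pool.Agent.R129.Hfp
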