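import Pool.Agent.R129.Hfp.Main
import Pool.Agent.R545.IN.Main

/-!
# `1/2`-flow-pairs: graphs in which seven vertices are never far from each other
-/

set_option autoImplicit false
set_option linter.unusedSectionVars false
set_option synthInstance.maxHeartbeats 400000
set_option synthInstance.maxSize 2048

namespace Pool.Agent.R129.Hfp

open Finset Pool.Agent.TH362.TF Pool.Agent.TH362.TF.Four Pool.Agent.R890.FF Pool.Agent.R545.IN

/-- the theorem of `R545/IN` for all graphs obtained by identification of vertices -/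
theorem seven' {V E : Type} [Fintype V] [DecidableEq V] [DecidableEq E] [Fintype E]
    (s t : E → V) (ρ : V → V) (h1 : N1 (fun e => ρ (s e)) (fun e => ρ (t e)) univ)
    (h7 : ∀ x : Fin 7 → V, Function.Injective x → ∃ i j, i ≠ j ∧ Close s t (x i) (x j)) :
    NZ (fun e => ρ (s e)) (fun e => ρ (t e)) univ ∨
      PQ (fun e => ρ (s e)) (fun e => ρ (t e)) univ := by
  classical
  by_contra hc
  rw [not_or] at hc
  obtain ⟨π', hM⟩ := exists_Mq _ _ univ h1 hc.1 hc.2
  obtain ⟨I, hIc, hnb, hi⟩ := Mq_ind7 hM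
  obtain ⟨π, hπ⟩ : ∃ π : V → V, π = fun v => π' (ρ v) := ⟨_, rfl⟩
  have hs : (fun e => π' (ρ (s e))) = fun e => π (s e) := by rw [hπ]
  have ht : (fun e => π' (ρ (t e))) = fun e => π (t e) := by rw [hπ]
  change Mq (fun e => π' (ρ (s e))) (fun e => π' (ρ (t e))) univ at hM
  rw [hs, ht] at hM hnb hi
  have hpre : ∀ y ∈ I, ∃ v, π v = y := by
    intro y hy
    obtain ⟨z, _, e, _, hE⟩ := hnb y hy
    rcases hE with ⟨h2, _⟩ | ⟨_, h2⟩
    · exact ⟨s e, h2⟩
    · exact ⟨t e, h2⟩
  set φ := (Finset.equivFinOfCardEq hIc).symm with hφ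
  choose! g hg using hpre
  have hgφ : ∀ i, π (g (φ i)) = φ i := fun i => hg _ (φ i).2
  obtain ⟨i, j, hij, hcl⟩ := h7 (fun i => g (φ i)) (by
    intro i j hij
    have h2 := congrArg π hij
    change π (g (φ i)) = π (g (φ j)) at h2
    rw [hgφ, hgφ] at h2
    exact φ.injective (Subtype.ext h2))
  have hXY : π (g (φ i)) ≠ π (g (φ j)) := by
    rw [hgφ, hgφ]
    intro h2
    exact hij (φ.injective (Subtype.ext h2))
  have hno : ¬ Nb (fun e => π (s e)) (fun e => π (t e)) univ (π (g (φ i))) (π (g (φ j))) := by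
    rw [hgφ, hgφ]
    exact hi _ (φ i).2 _ (φ j).2
  have hmap : ∀ {u w : V} {e : E}, Ends s t u w e →
      Ends (fun e => π (s e)) (fun e => π (t e)) (π u) (π w) e := by
    intro u w e hE
    rcases hE with ⟨h2, h3⟩ | ⟨h2, h3⟩
    · exact Or.inl ⟨congrArg π h2, congrArg π h3⟩
    · exact Or.inr ⟨congrArg π h2, congrArg π h3⟩
  rcases hcl with ⟨e, hE⟩ | ⟨e, f, e', f', a, b, hne, E1, E2, E3, E4⟩
  · exact hno ⟨hXY.symm, e, mem_univ _, hmap hE⟩
  · have mid : ∀ (e f : E) (a : V), Ends s t (g (φ i)) a e → Ends s t a (g (φ j)) f →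
        π a ≠ π (g (φ i)) ∧ π a ≠ π (g (φ j)) := by
      intro e f a k1 k2
      refine ⟨fun k3 => ?_, fun k3 => ?_⟩
      · have k4 := hmap k2
        rw [k3] at k4
        exact hno ⟨hXY.symm, f, mem_univ _, k4⟩
      · have k4 := hmap k1
        rw [k3] at k4
        exact hno ⟨hXY.symm, e, mem_univ _, k4⟩
    obtain ⟨A1, A2⟩ := mid e f a E1 E2
    obtain ⟨B1, B2⟩ := mid e' f' b E3 E4
    by_cases hab : π a = π b
    · have k1 := hmap E3
      have k2 := hmap E4
      rw [← hab] at k1 k2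
      have k3 := hM.nopar A1.symm (mem_univ e) (mem_univ e') (hmap E1) k1
      have k4 := hM.nopar A2 (mem_univ f) (mem_univ f') (hmap E2) k2
      rcases hne with hne | hne
      · exact hne k3
      · exact hne k4
    · exact hM.four (a := π (g (φ i))) (b := π a) (c := π (g (φ j))) (d := π b) hXY hab
        ⟨A1, e, mem_univ _, hmap E1⟩ ⟨A2.symm, f, mem_univ _, hmap E2⟩
        (nb_comm ⟨B2.symm, f', mem_univ _, hmap E4⟩)
        (nb_comm ⟨B1, e', mem_univ _, hmap E3⟩)

end Pool.Agent.R129.Hfp
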